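import Mathlib

set_option autoImplicit false
open Finset Real MeasureTheory

namespace Pool.Agent.Results.MP_332ffb_mp.Embedded

/-- An open metric graph: `n` vertices, `m` finite edges from `src e` to `tgt e` of length `len e`,
and `N` leads, the lead `j` being attached at the vertex `att j`. -/
structure QGraph (n m N : ℕ) where
  src : Fin m → Fin n
  tgt : Fin m → Fin n
  att : Fin N → Fin n
  len : Fin m → ℝ

variable {n m N : ℕ}

/-- The standing hypotheses: connected, at least one lead, positive lengths, no loops, and no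
vertex of degree 2 once the leads are attached. -/
def QGraph.Admissible (G : QGraph n m N) : Prop :=
  (∀ a b, Relation.EqvGen (fun a b => ∃ e, G.src e = a ∧ G.tgt e = b) a b) ∧ 0 < N ∧
  (∀ e, 0 < G.len e) ∧ (∀ e, G.src e ≠ G.tgt e) ∧
  ∀ w, (univ.filter fun e => G.src e = w).card + (univ.filter fun e => G.tgt e = w).card +
    (univ.filter fun j => G.att j = w).card ≠ 2

/-- `lam` has a nonzero square integrable eigenfunction with Kirchhoff conditions: `u e` lives on
`[0, len e]`, `v j` on `[0, ∞)`, `φ` gives the vertex values. -/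
def QGraph.Eigenvalue (G : QGraph n m N) (lam : ℝ) : Prop :=
  ∃ (u u' : Fin m → ℝ → ℝ) (v v' : Fin N → ℝ → ℝ) (φ : Fin n → ℝ),
    (∀ e x, HasDerivAt (u e) (u' e x) x ∧ HasDerivAt (u' e) (-lam * u e x) x) ∧
    (∀ j x, HasDerivAt (v j) (v' j x) x ∧ HasDerivAt (v' j) (-lam * v j x) x) ∧
    (∀ j, MemLp (v j) 2 (volume.restrict (Set.Ici 0))) ∧
    (∀ e, u e 0 = φ (G.src e) ∧ u e (G.len e) = φ (G.tgt e)) ∧ (∀ j, v j 0 = φ (G.att j)) ∧
    (∀ w, ∑ e ∈ univ.filter (fun e => G.src e = w), u' e 0 -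
      ∑ e ∈ univ.filter (fun e => G.tgt e = w), u' e (G.len e) +
      ∑ j ∈ univ.filter (fun j => G.att j = w), v' j 0 = 0) ∧
    ∃ e x, 0 < x ∧ x < G.len e ∧ u e x ≠ 0

lemma fin_zero (c b d e : ℝ) (hc : c ≠ 0) (h : b ≠ 0 ∨ d ≠ 0) :
    {T : ℝ | b * arctan (c + T) + d * arctan T = e}.Finite := by
  by_contra hinf
  obtain ⟨s, hs, hcard⟩ := Set.Infinite.exists_subset_card_eq hinf 4
  set f := s.orderEmbOfFin hcard
  have hf : ∀ i, b * arctan (c + f i) + d * arctan (f i) = e := fun i =>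
    hs (s.orderEmbOfFin_mem hcard i)
  have der : ∀ T : ℝ, HasDerivAt (fun T => b * arctan (c + T) + d * arctan T)
      (b * (1 / (1 + (c + T) ^ 2) * 1) + d * (1 / (1 + T ^ 2))) T := fun T =>
    ((((hasDerivAt_id T).const_add c).arctan).const_mul b).add ((hasDerivAt_arctan T).const_mul d)
  have rolle : ∀ i j : Fin 4, i < j → ∃ t, f i < t ∧ t < f j ∧
      b * (1 + t ^ 2) + d * (1 + (c + t) ^ 2) = 0 := by
    intro i j hij
    obtain ⟨t, ht, h0⟩ := exists_hasDerivAt_eq_zero (f.strictMono hij)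
      (fun x _ => (der x).continuousAt.continuousWithinAt) ((hf i).trans (hf j).symm) fun x _ => der x
    refine ⟨t, ht.1, ht.2, ?_⟩
    have h1 : 0 < 1 + t ^ 2 := by positivity
    have h2 : 0 < 1 + (c + t) ^ 2 := by positivity
    field_simp at h0
    linarith
  obtain ⟨t1, -, a1, e1⟩ := rolle 0 1 (by decide)
  obtain ⟨t2, b2, a2, e2⟩ := rolle 1 2 (by decide)
  obtain ⟨t3, b3, -, e3⟩ := rolle 2 3 (by decide)
  have l1 : t2 - t1 ≠ 0 := (sub_pos.2 (a1.trans b2)).ne'
  have l2 : t3 - t2 ≠ 0 := (sub_pos.2 (a2.trans b3)).ne'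
  have l3 : t3 - t1 ≠ 0 := (sub_pos.2 ((a1.trans b2).trans (a2.trans b3))).ne'
  have q1 : (b + d) * (t1 + t2) + 2 * d * c = 0 :=
    mul_left_cancel₀ l1 (by linear_combination e2 - e1)
  have q2 : (b + d) * (t2 + t3) + 2 * d * c = 0 :=
    mul_left_cancel₀ l2 (by linear_combination e3 - e2)
  have q3 : b + d = 0 := mul_left_cancel₀ l3 (by linear_combination q2 - q1)
  have q4 : d = 0 := mul_left_cancel₀ hc (by linear_combination (1 / 2) * q1 - (t1 + t2) / 2 * q3)
  rcases h with h | h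
  · exact h (by linarith)
  · exact h q4

lemma lengths : ∃ x T : ℝ, 0 < x ∧ x < π / 2 ∧ 0 < T ∧
    LinearIndependent ℤ ![π / 2, π / 2 - arctan (tan x + T), x, arctan T] := by
  obtain ⟨x, hx, x1, x2⟩ := ((Set.countable_range fun q : ℚ => (q : ℝ) * π).dense_compl ℝ).exists_mem_open
    (isOpen_Ioo (a := (0 : ℝ)) (b := π / 2)) (Set.nonempty_Ioo.2 (by positivity))
  have c0 : 0 < tan x := tan_pos_of_pos_of_lt_pi_div_two x1 x2
  have cnt : (⋃ g : Fin 4 → ℤ, ⋃ _ : (-(g 1 : ℝ) ≠ 0 ∨ (g 3 : ℝ) ≠ 0),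
      {T : ℝ | -(g 1 : ℝ) * arctan (tan x + T) + g 3 * arctan T =
        -(g 0 * (π / 2) + g 1 * (π / 2) + g 2 * x)}).Countable :=
    Set.countable_iUnion fun g => Set.countable_iUnion fun h => (fin_zero _ _ _ _ c0.ne' h).countable
  obtain ⟨T, hT, T0⟩ := (cnt.dense_compl ℝ).exists_mem_open (isOpen_Ioi (a := (0 : ℝ))) Set.nonempty_Ioi
  refine ⟨x, T, x1, x2, T0, Fintype.linearIndependent_iff.2 fun g hg => ?_⟩
  simp only [Fin.sum_univ_four, Matrix.cons_val_zero, Matrix.cons_val_one, Matrix.cons_val,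
    zsmul_eq_mul] at hg
  have h13 : ¬ (-(g 1 : ℝ) ≠ 0 ∨ (g 3 : ℝ) ≠ 0) := fun h =>
    hT (Set.mem_iUnion.2 ⟨g, Set.mem_iUnion.2 ⟨h, by simp only [Set.mem_ofPred_eq]; linarith⟩⟩)
  push Not at h13
  have g1 : (g 1 : ℝ) = 0 := by linarith [h13.1]
  rw [g1, h13.2] at hg
  have g2 : (g 2 : ℝ) = 0 := by
    by_contra h
    refine hx ⟨-(g 0) / (2 * g 2), ?_⟩
    push_cast
    field_simp
    linarith
  rw [g2] at hg
  have g0 : (g 0 : ℝ) = 0 := by
    have : (g 0 : ℝ) * (π / 2) = 0 := by linarith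
    exact (mul_eq_zero.1 this).resolve_right (by positivity)
  intro i
  fin_cases i
  · exact_mod_cast g0
  · exact_mod_cast g1
  · exact_mod_cast g2
  · exact_mod_cast h13.2

lemma dcos (A y : ℝ) : HasDerivAt (fun y => A * cos y) (A * -sin y) y ∧
    HasDerivAt (fun y => A * -sin y) (-1 * (A * cos y)) y :=
  ⟨(hasDerivAt_cos y).const_mul A, ((hasDerivAt_sin y).neg.const_mul A).congr_deriv (by ring)⟩

lemma deg : ∀ w : Fin 5,
    (univ.filter fun e : Fin 4 => (![1, 0, 3, 4] : Fin 4 → Fin 5) e = w).card +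
    (univ.filter fun e : Fin 4 => (![0, 2, 2, 2] : Fin 4 → Fin 5) e = w).card +
    (univ.filter fun j : Fin 1 => (![0] : Fin 1 → Fin 5) j = w).card ≠ 2 := by decide

theorem result : ∃ (n m N : ℕ) (G : QGraph n m N) (lam : ℝ),
    G.Admissible ∧ LinearIndependent ℤ G.len ∧ G.Eigenvalue lam := by
  obtain ⟨x, T, x1, x2, T0, hli⟩ := lengths
  have cx : cos x ≠ 0 := (cos_pos_of_mem_Ioo ⟨by linarith, x2⟩).ne'
  have cT : cos (arctan T) ≠ 0 := (cos_arctan_pos T).ne'
  set S := tan x + T with hS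
  set k := cos (arctan S) with hk
  refine ⟨5, 4, 1, ⟨![1, 0, 3, 4], ![0, 2, 2, 2], ![0], ![π / 2, π / 2 - arctan S, x, arctan T]⟩, 1,
    ⟨?_, one_pos, ?_, by dsimp only; decide, deg⟩, hli,
    ![fun y => -1 * cos y, sin, fun y => k / cos x * cos y, fun y => k / cos (arctan T) * cos y],
    ![fun y => -1 * -sin y, cos, fun y => k / cos x * -sin y, fun y => k / cos (arctan T) * -sin y],
    fun _ _ => 0, fun _ _ => 0, ![0, -1, k, k / cos x, k / cos (arctan T)], ?_,
    fun _ y => ⟨hasDerivAt_const y 0, by simpa using hasDerivAt_const y (0 : ℝ)⟩,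
    fun _ => MemLp.zero, ?_, ?_, ?_, 0, π / 4, by positivity, ?_, ?_⟩
  · have r := fun e : Fin 4 => Relation.EqvGen.rel
      (r := fun a b : Fin 5 => ∃ e : Fin 4, ![1, 0, 3, 4] e = a ∧ ![0, 2, 2, 2] e = b) _ _ ⟨e, rfl, rfl⟩
    have to2 : ∀ a : Fin 5, Relation.EqvGen
        (fun a b : Fin 5 => ∃ e : Fin 4, ![1, 0, 3, 4] e = a ∧ ![0, 2, 2, 2] e = b) a 2 := by
      intro a
      fin_cases a
      · exact r 1
      · exact (r 0).trans _ _ _ (r 1)
      · exact Relation.EqvGen.refl _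
      · exact r 2
      · exact r 3
    exact fun a b => (to2 a).trans _ _ _ ((to2 b).symm _ _)
  · intro e
    fin_cases e
    · simp [pi_pos]
    · simpa using arctan_lt_pi_div_two S
    · simpa using x1
    · simpa using T0
  · intro e y
    fin_cases e
    · exact dcos _ y
    · exact ⟨hasDerivAt_sin y, (hasDerivAt_cos y).congr_deriv (by simp)⟩
    · exact dcos _ y
    · exact dcos _ y
  · intro e
    fin_cases e
    · simp
    · simp [sin_pi_div_two_sub, hk]
    · simp [cx]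
    · simp [cT]
  · intro j; fin_cases j; simp
  · intro w
    have e1 : sin (arctan S) = S * k := by
      rw [hk, ← div_eq_iff (cos_arctan_pos S).ne', ← tan_eq_sin_div_cos, tan_arctan]
    have e2 : sin (arctan T) = T * cos (arctan T) := by
      rw [← div_eq_iff cT, ← tan_eq_sin_div_cos, tan_arctan]
    have e3 : sin x = tan x * cos x := (tan_mul_cos cx).symm
    fin_cases w <;> simp [sum_filter, Fin.sum_univ_four, cos_pi_div_two_sub]
    rw [e1, e2, e3, hS]
    field_simp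
    ring
  · show π / 4 < π / 2
    linarith [pi_pos]
  · show -1 * cos (π / 4) ≠ 0
    have := cos_pos_of_mem_Ioo (x := π / 4) ⟨by linarith [pi_pos], by linarith [pi_pos]⟩
    intro h
    linarith

end Pool.Agent.Results.MP_332ffb_mp.Embedded
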